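import Pool.Agent.Lib.MP_09cbbd_rd.DInst

/-!
# A first-order phase transition of identical hard bodies

Let `N` be an open, convex, bounded, non-empty subset of `ℝ^d`, `d ≥ 2`, with `N = -N`, for example
the set of the vectors shorter than `2 a`: it is excluded for the centre of a ball of radius `a` by
another ball of radius `a` at the origin. For every `δ > 0` there are a finite union `K` of closed
cubes, connected and with a connected interior if `d ≥ 3`, and a number `η > 0` such that for every
compact set `K₁` between `K` and the closed `η`-neighbourhood of `K` the gas of translates of `K₁`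
which may not overlap has a first-order phase transition strictly below its maximal density, and
the set `K₁ - K₁` of the excluded displacements contains all of `N` except vectors of norm less
than `δ`, and differs from `N` by a set of volume at most `δ`.
-/

set_option autoImplicit false

open MeasureTheory Pointwise Pool.Agent.HardBodies

namespace Pool.Agent.Results.MP_09cbbd_mp.HardBodies

theorem result : ∀ d : ℕ, 2 ≤ d → ∀ N : Set (Fin d → ℝ), IsOpen N → Convex ℝ N →
    Bornology.IsBounded N → (∀ u ∈ N, -u ∈ N) → N.Nonempty → ∀ δ : ℝ, 0 < δ →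
    ∃ (K : Set (Fin d → ℝ)) (η : ℝ), IsCubeUnion d K ∧
      (3 ≤ d → IsConnected K ∧ IsConnected (interior K)) ∧ 0 < η ∧
      ∀ K₁ : Set (Fin d → ℝ), IsCompact K₁ → K ⊆ K₁ → K₁ ⊆ Metric.cthickening η K →
        (∀ u ∈ N, δ ≤ ‖u‖ → u ∈ K₁ - K₁) ∧
        volume (symmDiff (K₁ - K₁) N) ≤ ENNReal.ofReal δ ∧ Transition d K₁ :=
  fun _d hd N ho hc hb hs hne δ hδ =>
    RC.final_con hd (fun I _N _c _D hC => RC.instKD I hC) N ho hc hb hs hne δ hδ

end Pool.Agent.Results.MP_09cbbd_mp.HardBodies
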