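import Pool.Agent.Lib.ISO.Near

/-!
# The isotherm of hard spheres in high dimension

`b` is the volume of the ball of radius `2 a` in `ℝ^d`, and the density `x` (in units of `1 / b`) is
the mean number of hard spheres of radius `a` in a large cube at the activity `lam`, times `b` and
divided by the volume. `f` and `ρ₀` are the free energy and the close packing density. Let
`w = log (lam b)` and `θ < (1 - log 2) / 2`, `0 < s < 1`. If `d` is large, then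

* `x = c` up to exponentially small errors, where `c e^c = lam b`, as long as `c ≤ θ d` (mean field
  theory; so `x` is asymptotically equal to `w` for `1 << w ≤ θ d`);
* `x ≥ d ^ (2 - s)` for `w ≥ (1 / 2 + s) d log d`;
* for every `η ≤ 1` there are `w₁ < w₂ ≤ (1 + η) w₁` in the interval
  `[θ d, (1 / 2 + s) d log d]` such that the density grows at least by the factor
  `(1 + η) ^ ((1 - s) log d / log log d)` between `w₁` and `w₂`;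
* `b f(ρ) = x - x log ρ - x² / 2` up to exponentially small errors for `x = ρ b ≤ θ d`;
* `f(ρ) ≥ ρ (log b - (1 / 2 + s) d log d)` for `ρ b ≤ d ^ (2 - s)`;
* there is `y` with `θ d ≤ y ≤ (1 + s) d log d` such that no holomorphic function on the disc
  `|z - y| < r y`, `r = 100 log log d / (s log d)`, which is bounded by `exp (d ^ (1 - s))`, is equal
  to `b f(x / b) - x log b` for the real `x` of the disc.
-/

set_option autoImplicit false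

open MeasureTheory Filter Pool.Agent.KacGas Pool.Agent.VdwGas

namespace Pool.Agent.Results.MP_09cbbd_mp.IsothermJump

theorem result : ∀ θ s : ℝ, 0 < θ → θ < (1 - Real.log 2) / 2 → 0 < s → s < 1 →
    ∃ d0 : ℕ, ∀ d : ℕ, d0 ≤ d → ∀ a b : ℝ, 0 < a →
    b = (volume {x : Fin d → ℝ | ∑ k, x k ^ 2 < (2 * a) ^ 2}).toReal →
    (∀ lam c : ℝ, 0 ≤ lam → 0 ≤ c → c * Real.exp c = lam * b → c ≤ θ * d →
      ∀ δ : ℝ, 0 < δ → ∀ᶠ ℓ : ℝ in atTop,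
        |b * ((∑' n : ℕ, n * (lam ^ n * Z d a (fun _ => 0) ℓ n)) /
          ∑' n : ℕ, lam ^ n * Z d a (fun _ => 0) ℓ n) / ℓ ^ d - c| ≤
          40 * (c ^ 3 * (√3 / 2) ^ d) + δ) ∧
    (∀ lam : ℝ, 0 < lam → (1 / 2 + s) * (d * Real.log d) ≤ Real.log (lam * b) →
      ∀ᶠ ℓ : ℝ in atTop, (d : ℝ) ^ (2 - s) ≤
        b * ((∑' n : ℕ, n * (lam ^ n * Z d a (fun _ => 0) ℓ n)) /
          ∑' n : ℕ, lam ^ n * Z d a (fun _ => 0) ℓ n) / ℓ ^ d) ∧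
    (∀ η : ℝ, 0 < η → η ≤ 1 → ∃ lam₁ lam₂ : ℝ, 0 < lam₁ ∧ lam₁ < lam₂ ∧
      θ * d ≤ Real.log (lam₁ * b) ∧
      Real.log (lam₂ * b) ≤ (1 + η) * Real.log (lam₁ * b) ∧
      Real.log (lam₂ * b) ≤ (1 / 2 + s) * (d * Real.log d) ∧
      ∀ᶠ ℓ : ℝ in atTop, (1 + η) ^ ((1 - s) * Real.log d / Real.log (Real.log d)) *
          ((∑' n : ℕ, n * (lam₁ ^ n * Z d a (fun _ => 0) ℓ n)) /
            ∑' n : ℕ, lam₁ ^ n * Z d a (fun _ => 0) ℓ n) ≤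
        (∑' n : ℕ, n * (lam₂ ^ n * Z d a (fun _ => 0) ℓ n)) /
          ∑' n : ℕ, lam₂ ^ n * Z d a (fun _ => 0) ℓ n) ∧
    ∃ (f : ℝ → ℝ) (ρ₀ : ℝ), IsF d a (fun _ => 0) f ρ₀ ∧
      (∀ ρ x : ℝ, 0 < ρ → x = ρ * b → x ≤ θ * d → ρ < ρ₀ ∧
        |b * f ρ - (x - x * Real.log ρ - x ^ 2 / 2)| ≤
          40 * (x ^ 3 * (1 + x) * (√3 / 2) ^ d)) ∧
      (∀ ρ : ℝ, 0 < ρ → ρ * b ≤ (d : ℝ) ^ (2 - s) → ρ < ρ₀ ∧
        ρ * (Real.log b - (1 / 2 + s) * (d * Real.log d)) ≤ f ρ) ∧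
      ∃ y r : ℝ, r = 100 * Real.log (Real.log d) / (s * Real.log d) ∧
        θ * d ≤ y ∧ y ≤ (1 + s) * (d * Real.log d) ∧ (1 + r) * y < ρ₀ * b ∧
        ∀ g : ℂ → ℂ, DifferentiableOn ℂ g (Metric.ball (y : ℂ) (r * y)) →
          (∀ x : ℝ, |x - y| < r * y → g x = ((b * f (x / b) - x * Real.log b : ℝ) : ℂ)) →
          ∃ z ∈ Metric.ball (y : ℂ) (r * y), Real.exp ((d : ℝ) ^ (1 - s)) < ‖g z‖ := by
  intro θ s hθ hθ1 hs hs1
  obtain ⟨d1, h1⟩ := Pool.Agent.Iso.isotherm hθ hθ1 hs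
  obtain ⟨d2, h2⟩ := Pool.Agent.HdGas.mfthm4 θ hθ hθ1
  obtain ⟨d3, h3⟩ := Pool.Agent.Iso.cells s hs
  obtain ⟨d4, h4⟩ := Pool.Agent.Iso.nearsing hθ hθ1 hs hs1
  refine ⟨max (max d1 d4) (max d2 d3), fun d hd a b ha hb => ?_⟩
  have hb' : Pool.Agent.HdGas.ball d a = b := hb.symm
  obtain ⟨i1, i2⟩ := h1 d (by omega) a ha
  obtain ⟨j1, f, ρ₀, hF, -, j2⟩ := h2 d (by omega) a ha
  have hk := h3 d (by omega) a ha f ρ₀ hF
  have hn := h4 d (by omega) a ha f ρ₀ hF (fun ρ x hρ hx hxd => (j2 ρ x hρ hx hxd).2.2)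
  rw [hb'] at i1 i2 j1 j2 hn
  refine ⟨j1, i1, i2, f, ρ₀, hF,
    fun ρ x hρ hx hxd => ⟨(j2 ρ x hρ hx hxd).1, (j2 ρ x hρ hx hxd).2.2⟩, fun ρ hρ hρd => ?_, hn⟩
  have hk' : Pool.Agent.KLG.kap d * (2 * a) ^ d = b := by
    rw [← hb', Pool.Agent.HdGas.ball_eq d ha, mul_comm]
    rfl
  rw [hk'] at hk
  exact hk ρ hρ hρd

end Pool.Agent.Results.MP_09cbbd_mp.IsothermJump
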