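import Pool.Agent.Lib.NT.Main4

/-!
# No phase transition of hard spheres at small activity or density

Let `b` be the volume of the ball of radius `2 a` in `ℝ^d`, `d ≥ 2`, and `f`, `ρ₀` the free energy
and the close packing density of hard spheres of radius `a`. The free energy is real-analytic at
every density which belongs to a chemical potential `μ` with `e^μ b < c`, and on an interval
`(0, ρ₁)` with `ρ₁ b ≥ c / (1 + c)`. Here `c = 15 / 2`, or `c = 11` if `d ≥ 3`, or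
`c = e^(d/8) / √2`, or any `c > 0` such that the Fourier transform of the ball is at least `-b / c`.
Let `θ < (1 - log 2) / 2`; if `d` is large then `f` is real-analytic at all densities `ρ ≤ θ d / b`.
-/

set_option autoImplicit false

open MeasureTheory Pool.Agent.VdwGas

namespace Pool.Agent.Results.MP_09cbbd_mp.NoTransition

theorem result : ∀ θ : ℝ, 0 < θ → θ < (1 - Real.log 2) / 2 →
    ∃ d0 : ℕ, ∀ d : ℕ, 2 ≤ d → ∀ a b : ℝ, 0 < a →
    b = (volume {x : Fin d → ℝ | ∑ k, x k ^ 2 < (2 * a) ^ 2}).toReal →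
    ∃ (f : ℝ → ℝ) (ρ₀ : ℝ), IsF d a (fun _ => 0) f ρ₀ ∧
      (∀ c : ℝ, 0 < c → (c = 15 / 2 ∨ (3 ≤ d ∧ c = 11) ∨ c = Real.exp (d / 8) / √2 ∨
          ∀ ξ : Fin d → ℝ, -(b / c) ≤
            ∫ x in {x : Fin d → ℝ | ∑ k, x k ^ 2 < (2 * a) ^ 2}, Real.cos (∑ k, x k * ξ k)) →
        (∀ μ ρ : ℝ, ρ ∈ Set.Ioo 0 ρ₀ → (∀ x ∈ Set.Ioo 0 ρ₀, f x + μ * x ≤ f ρ + μ * ρ) →
          Real.exp μ * b < c → AnalyticAt ℝ f ρ) ∧
        ∀ ρ : ℝ, 0 < ρ → ρ * b < c / (1 + c) → ρ < ρ₀ ∧ AnalyticAt ℝ f ρ) ∧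
      (d0 ≤ d → θ * d < ρ₀ * b ∧ ∀ ρ : ℝ, 0 < ρ → ρ * b ≤ θ * d → AnalyticAt ℝ f ρ) := by
  intro θ hθ0 hθ1
  obtain ⟨_, h⟩ := Pool.Agent.HdGas.main7
  obtain ⟨d0, h4⟩ := Pool.Agent.HdGas.mfthm4 θ hθ0 hθ1
  refine ⟨d0, fun d hd a b ha hb => ?_⟩
  obtain ⟨f, ρ₀, hF, hε, h2, h3, h8, -⟩ := h d hd a ha
  have hb' : Pool.Agent.HdGas.ball d a = b := hb.symm
  refine ⟨f, ρ₀, hF, fun c hc hor => ?_, fun hd0 => ?_⟩
  swap
  · obtain ⟨-, g, r, hG, j1, j2⟩ := h4 d hd0 a ha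
    rw [hb'] at j1 j2
    obtain ⟨rfl, hfg⟩ := Pool.Agent.Vdw.IsF.unique (by omega) hF hG
    refine ⟨j1, fun ρ hρ hρd => ?_⟩
    obtain ⟨k1, k2, -⟩ := j2 ρ _ hρ rfl hρd
    exact k2.congr (Filter.eventually_of_mem (Ioo_mem_nhds hρ k1) fun x hx => (hfg x hx).symm)
  have hft : Pool.Agent.HdGas.FTa d a (1 / c) := by
    rcases hor with rfl | ⟨hd3, rfl⟩ | rfl | hξ
    · have e : (1 / (15 / 2) : ℝ) = 2 / 15 := by norm_num
      rw [e]
      exact h2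
    · exact h3 hd3
    · have e : 1 / (Real.exp ((d : ℝ) / 8) / √2) = √2 * Real.exp (-(d : ℝ) / 8) := by
        rw [one_div_div, neg_div, Real.exp_neg]
        rfl
      rw [e]
      exact h8
    · intro ξ
      have := hξ ξ
      rw [hb', one_div_mul_eq_div]
      exact this
  obtain ⟨k1, k2⟩ := hε (1 / c) (by positivity) hft
  rw [hb'] at k1 k2
  refine ⟨fun μ ρ hρ hmax hμ => k1 μ ρ hρ hmax ?_, fun ρ hρ hρc => k2 ρ hρ ?_⟩
  · rwa [mul_one_div, div_lt_one hc]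
  · rw [lt_div_iff₀ (by positivity)] at hρc
    have e : ρ * b * (1 + 1 / c) = ρ * b * (1 + c) / c := by
      field_simp
      ring
    rw [e, div_lt_one hc]
    exact hρc

end Pool.Agent.Results.MP_09cbbd_mp.NoTransition
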