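import Pool.Agent.Lib.MP_09cbbd_vw.End
import Pool.Agent.Lib.KLG.Main

/-!
# Van der Waals theory for hard spheres with a Kac interaction of finite range

Let `d ≥ 2`, let `f` be the free energy of the pure hard-sphere gas in `ℝ^d` and `ρ₀` the close
packing density. Let `J ≥ 0` be a measurable, bounded, even function which is almost everywhere
continuous, vanishes outside a bounded set and has a positive integral. The mean field theory (van
der Waals, Lebowitz-Penrose) replaces the free energy of hard spheres with the pair energy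
`-β γ^d J (γ (x - y))` by the concave envelope of `f x + β (∫ J) / 2 x^2`; its transitions are the
coexistence intervals of this function, they exist exactly above a critical value `bc`. For almost
every inverse temperature `β` EVERY transition of the mean field theory, whatever the shape of the
free energy `f` of hard spheres, is a first-order transition of the gas with a finite range
`1 / γ`, as soon as `γ` is small, and its densities converge to the mean field ones. For every
`s > 0` and all large `d` the critical value is at most `d^(s - 1)` times the volume of the ball of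
radius `2 a`: in high dimension an attraction which is arbitrarily weak compared with the hard core
is enough.
-/

set_option autoImplicit false

open MeasureTheory Pool.Agent.VdwGas Pool.Agent.Vdw

namespace Pool.Agent.Results.MP_09cbbd_mp.VanDerWaals

theorem result : ∃ d0 : ℝ → ℕ, ∀ d : ℕ, 2 ≤ d → ∀ a : ℝ, 0 < a →
    ∃ (f : ℝ → ℝ) (ρ₀ bc : ℝ), IsF d a (fun _ => 0) f ρ₀ ∧ 0 ≤ bc ∧
      (∀ b : ℝ, b < bc → ConcaveOn ℝ (Set.Ioo 0 ρ₀) fun x => f x + b / 2 * x ^ 2) ∧
      (∀ b : ℝ, bc < b → ∃ x1 x2 : ℝ, Coex (fun x => f x + b / 2 * x ^ 2) ρ₀ x1 x2) ∧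
      (∀ s : ℝ, 0 < s → d0 s ≤ d → bc ≤
        (volume {x : Fin d → ℝ | ∑ k, x k ^ 2 < (2 * a) ^ 2}).toReal * (d : ℝ) ^ (s - 1)) ∧
      ∀ J : (Fin d → ℝ) → ℝ, Measurable J → (∀ᵐ x, ContinuousAt J x) → (∀ x, 0 ≤ J x) →
        (∃ C, ∀ x, J x ≤ C) → (∀ x, J (-x) = J x) → (∃ R, ∀ x, J x ≠ 0 → ∀ k, |x k| ≤ R) →
        0 < ∫ x, J x → ∀ᵐ β : ℝ, 0 < β → ∀ x1 x2 : ℝ,
          Coex (fun x => f x + β * (∫ x, J x) / 2 * x ^ 2) ρ₀ x1 x2 → ∀ δ : ℝ, 0 < δ →
            ∃ γ0 : ℝ, 0 < γ0 ∧ ∀ γ : ℝ, 0 < γ → γ < γ0 →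
              TransitionNear d a (fun x => β * γ ^ d * J (γ • x)) ρ₀ x1 x2 δ := by
  have h := Pool.Agent.KLG.critical
  refine ⟨fun s => if hs : 0 < s then (h s hs).choose else 0, fun d hd a ha => ?_⟩
  obtain ⟨f, ρ₀, bc, h1, h2, h3, h4, h5⟩ := Pool.Agent.Vdw.main d hd a ha
  refine ⟨f, ρ₀, bc, h1, h2, h3, h4, fun s hs hd0 => ?_, h5⟩
  simp only [hs, dif_pos] at hd0
  by_contra hcon
  push Not at hcon
  have hvol : (volume {x : Fin d → ℝ | ∑ k, x k ^ 2 < (2 * a) ^ 2}).toReal =
      Pool.Agent.KLG.kap d * (2 * a) ^ d := by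
    have h6 := Pool.Agent.KLG.J.vol_ball d (fun _ => 0) (r := 2 * a) (by positivity)
    simp only [sub_zero] at h6
    rw [h6, ENNReal.toReal_ofReal]
    exact mul_nonneg ENNReal.toReal_nonneg (by positivity)
  rw [hvol] at hcon
  exact (h s hs).choose_spec d hd0 a ha f ρ₀ h1 (h3 _ hcon)

end Pool.Agent.Results.MP_09cbbd_mp.VanDerWaals
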